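import Pool.Agent.TH892.CF3
import Pool.Agent.TH892.FullBox4
import Pool.Agent.W468.CFProd

set_option autoImplicit false

/-!
Conjecture F for almost all quadratic polynomials of height at most `H`: preparations.
-/

namespace Pool.Agent.Helper24K9.FBX

open Finset Polynomial Filter Topology
open Pool.Agent.H442R2.EHI (evt_log_pow evt_log_ge)
open Pool.Agent.H300R2.BH
open Pool.Agent.H300R2.FB
open Pool.Agent.TH892
open Pool.Agent.W468.ConjF

/-- the vector of the coefficients -/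
def cv (t : ℤ × ℤ × ℤ) : Fin (2 + 1) → ℤ := ![t.2.2, t.2.1, t.1]

lemma cv_eval (t : ℤ × ℤ × ℤ) (n : ℤ) : (pol (cv t)).eval n = t.1 * n ^ 2 + t.2.1 * n + t.2.2 := by
  rw [pol_eval, Fin.sum_univ_three]
  simp [cv]
  ring

lemma cv_inj : Function.Injective cv := by
  intro s t h
  have h0 := congrFun h 0
  have h1 := congrFun h 1
  have h2 := congrFun h 2
  simp [cv] at h0 h1 h2
  exact Prod.ext h2 (Prod.ext h1 h0)

lemma cv_mem (H : ℕ) (t : ℤ × ℤ × ℤ) (ht : t ∈ Tr H) : cv t ∈ box 2 H := by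
  rw [mem_Tr] at ht
  unfold Pool.Agent.TH892.box
  rw [Fintype.mem_piFinset]
  intro i
  fin_cases i
  · simp [cv]; omega
  · simp [cv]; omega
  · simp [cv]; omega

lemma card_box_Tr (H : ℕ) : #(box 2 H) = #(Tr H) := by
  unfold Pool.Agent.TH892.box Tr
  rw [Fintype.card_piFinset, Fin.prod_univ_three]
  simp only [card_product]
  simp
  ring

/-- the local factors -/
lemma rho_nr (t : ℤ × ℤ × ℤ) (p : ℕ) : rho (pol (cv t)) p = nr t.1 t.2.1 t.2.2 p := by
  unfold rho nr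
  congr 1
  apply filter_congr
  intro r _
  rw [cv_eval]

lemma adm_exists {a b c : ℤ} (h : Admissible a b c) (p : ℕ) (hp : p.Prime) :
    ∃ n : ℤ, ¬ (p : ℤ) ∣ a * n ^ 2 + b * n + c := by
  obtain ⟨ha, hg, h2, -⟩ := h
  by_contra hcon
  push Not at hcon
  have h0 := hcon 0
  have h1 := hcon 1
  have h3 := hcon 2
  have g0 : (p : ℤ) ∣ c := by simpa using h0
  have g1 : (p : ℤ) ∣ a + b := by
    have : (p : ℤ) ∣ (a * 1 ^ 2 + b * 1 + c) - c := dvd_sub h1 g0
    have e : (a * 1 ^ 2 + b * 1 + c) - c = a + b := by ring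
    rwa [e] at this
  have g2 : (p : ℤ) ∣ 2 * a := by
    have : (p : ℤ) ∣ (a * 2 ^ 2 + b * 2 + c) - c - 2 * (a + b) := dvd_sub (dvd_sub h3 g0) (Dvd.dvd.mul_left g1 2)
    have e : (a * 2 ^ 2 + b * 2 + c) - c - 2 * (a + b) = 2 * a := by ring
    rwa [e] at this
  by_cases hp2 : p = 2
  · subst hp2
    exact h2 ⟨by exact_mod_cast g1, by exact_mod_cast g0⟩
  · have hpz : Prime (p : ℤ) := Nat.prime_iff_prime_int.1 hp
    rcases hpz.dvd_or_dvd g2 with g | g
    · have : p ∣ 2 := by exact_mod_cast g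
      exact hp2 ((Nat.prime_dvd_prime_iff_eq hp Nat.prime_two).1 this)
    · have gb : (p : ℤ) ∣ b := (dvd_add_right g).1 g1
      have := hg _ g gb g0
      rw [Int.isUnit_iff] at this
      have := hp.two_le
      omega

lemma rho_ne {t : ℤ × ℤ × ℤ} (h : Admissible t.1 t.2.1 t.2.2) (p : ℕ) (hp : p.Prime) :
    rho (pol (cv t)) p ≠ p := by
  rw [rho_ne_iff _ p hp]
  obtain ⟨n, hn⟩ := adm_exists h p hp
  exact ⟨n, by rwa [cv_eval]⟩

/-- the cut Euler product is twice the cut constant -/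
lemma SS_CF {t : ℤ × ℤ × ℤ} (h : Admissible t.1 t.2.1 t.2.2) (z : ℕ) (hz : 2 ≤ z) :
    SS z (pol (cv t)) = 2 * CF t.1 t.2.1 t.2.2 z := by
  rw [← euler_eq t.1 t.2.1 t.2.2 h z hz (fun _ => P t.1 t.2.1 t.2.2) (fun _ => rfl)]
  unfold SS Pool.Agent.H373R2.BH.eulerProduct
  have hs : (range (z + 1)).filter Nat.Prime = (Icc 1 z).filter Nat.Prime := by
    ext p
    rw [mem_filter, mem_filter, mem_range, mem_Icc]
    constructor
    · rintro ⟨h1, h2⟩
      exact ⟨⟨h2.one_le, by omega⟩, h2⟩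
    · rintro ⟨⟨h1, h3⟩, h2⟩
      exact ⟨by omega, h2⟩
  rw [hs]
  refine prod_congr rfl fun p _ => ?_
  have h1 : Pool.Agent.H373R2.BH.omegaP (fun _ : Fin 1 => P t.1 t.2.1 t.2.2) p = rho (pol (cv t)) p := by
    rw [rho_nr]
    unfold Pool.Agent.H373R2.BH.omegaP nr
    congr 1
    apply filter_congr
    intro r _
    simp only [eval_P, exists_const]
  rw [h1, div_eq_mul_inv, pow_one, mul_comm]

end Pool.Agent.Helper24K9.FBX
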