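import Pool.Agent.Helper24K9.FBX.A

set_option autoImplicit false

/-!
Conjecture F for almost all quadratic polynomials of height at most `H`: the theorem.
-/

namespace Pool.Agent.Helper24K9.FBX

open Finset Polynomial Filter Topology
open Pool.Agent.H442R2.EHI (evt_log_pow evt_log_ge)
open Pool.Agent.H300R2.BH
open Pool.Agent.H300R2.FB
open Pool.Agent.TH892
open Pool.Agent.W468.ConjF

/-- `∑ 1 / log f(n)` over `n ≤ K` with `f(n) ≥ 2` is at most `2 K` -/
lemma lF_le (F : ℤ[X]) (K : ℕ) : 0 ≤ lF F K ∧ lF F K ≤ 2 * K := lF_bounds F K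

/-- the values are nonnegative from `2 H / a` on -/
lemma eval_nn (H : ℕ) (t : ℤ × ℤ × ℤ) (ht : t ∈ Tr H) (k : ℕ) (hk1 : 1 ≤ k) (hk : (2 * H : ℤ) ≤ t.1 * k) :
    0 ≤ (pol (cv t)).eval (k : ℤ) := by
  rw [cv_eval]
  rw [mem_Tr] at ht
  obtain ⟨⟨h1, h2⟩, ⟨h3, h4⟩, h5, h6⟩ := ht
  have hk1' : (1 : ℤ) ≤ k := by exact_mod_cast hk1
  have e1 : (2 * H : ℤ) * k ≤ t.1 * k * k := mul_le_mul_of_nonneg_right hk (by omega)
  have e2 : -(H : ℤ) * k ≤ t.2.1 * k := mul_le_mul_of_nonneg_right h3 (by omega)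
  have hH : (0 : ℤ) ≤ H := by omega
  have e3 : (H : ℤ) * 1 ≤ H * k := mul_le_mul_of_nonneg_left hk1' hH
  nlinarith

open Classical in
/-- **Conjecture F for almost all quadratic polynomials of height at most `H`.** -/
theorem main (U : ℕ) (ε : ℝ) (hε : 0 < ε) : ∃ B H0 : ℕ, ∀ H : ℕ, H0 ≤ H →
    ∃ Bad ⊆ Tr H, (#Bad : ℝ) ≤ (#(Tr H) : ℝ) / Real.log H ^ U ∧
    ∀ t ∈ Tr H, t ∉ Bad → Admissible t.1 t.2.1 t.2.2 →
      ∃ C : ℝ, 0 < C ∧ 1 / Real.log H ≤ C ∧ Tendsto (fun z => CF t.1 t.2.1 t.2.2 z) atTop (𝓝 C) ∧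
      ∀ K : ℕ, (H : ℝ) ^ ε ≤ K → (K : ℝ) * Real.log H ^ B ≤ H →
        |pv (pol (cv t)) K - 2 * C * lF (pol (cv t)) K| ≤ C * K / Real.log H ^ U ∧
        (K : ℝ) / (16 * Real.log H) ≤ lF (pol (cv t)) K := by
  obtain ⟨E1, hE1⟩ := exc_box 2 (by norm_num) ε hε (U + 2)
  obtain ⟨E2, hE2⟩ := CF_box (U + 2) (U + 2)
  set E := max (max E1 E2) 1 with hEd
  obtain ⟨B, H1, hH1⟩ := hE1 E ((le_max_left _ _).trans (le_max_left _ _))
  obtain ⟨H2, hH2⟩ := hE2 E ((le_max_right _ _).trans (le_max_left _ _))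
  obtain ⟨c, hc, hSSl⟩ := SS_lower 2 (by norm_num)
  have hlogs : ∀ᶠ x : ℕ in atTop, (E * Real.log (Real.log x)) ^ (2 * 2) * 16 ≤ c * Real.log x := by
    have h1 : (fun t : ℝ => Real.log t ^ (2 * 2)) =o[atTop] fun t : ℝ => t :=
      Real.isLittleO_pow_log_id_atTop
    have h2 := h1.bound (show (0:ℝ) < c / (16 * (1 + E) ^ (2 * 2)) by positivity)
    have h3 := (Real.tendsto_log_atTop.comp (tendsto_natCast_atTop_atTop (R := ℝ))).eventually h2
    filter_upwards [h3, evt_log_ge (Real.exp 1)] with x hx hx2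
    simp only [Function.comp] at hx
    have ht0 : 0 < Real.log x := lt_of_lt_of_le (Real.exp_pos 1) hx2
    have hl : 1 ≤ Real.log (Real.log x) := by
      rw [Real.le_log_iff_exp_le ht0]; exact hx2
    rw [Real.norm_of_nonneg (by positivity), Real.norm_of_nonneg ht0.le] at hx
    calc (E * Real.log (Real.log x)) ^ (2 * 2) * 16
        ≤ ((1 + E) * Real.log (Real.log x)) ^ (2 * 2) * 16 := by
          gcongr
          linarith
      _ = (16 * (1 + E) ^ (2 * 2)) * Real.log (Real.log x) ^ (2 * 2) := by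
          rw [mul_pow]; ring
      _ ≤ (16 * (1 + E) ^ (2 * 2)) * (c / (16 * (1 + E) ^ (2 * 2)) * Real.log x) := by gcongr
      _ = c * Real.log x := by field_simp
  have hev : ∀ᶠ H : ℕ in atTop, H1 ≤ H ∧ H2 ≤ H ∧ 256 ≤ Real.log H ∧
      Real.log H ^ (2 * U + 8) ≤ (H : ℝ) ^ ε ∧ 3 ≤ H ∧
      (E * Real.log (Real.log H)) ^ (2 * 2) * 16 ≤ c * Real.log H := by
    filter_upwards [eventually_ge_atTop H1, eventually_ge_atTop H2, evt_log_ge 256,
      evt_log_pow (2 * U + 8) ε hε, eventually_ge_atTop 3, hlogs] with H h1 h2 h3 h4 h5 h6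
    exact ⟨h1, h2, h3, h4, h5, h6⟩
  obtain ⟨H0, hH0⟩ := eventually_atTop.mp hev
  refine ⟨B, H0, fun H hH => ?_⟩
  obtain ⟨g1, g2, hL, hLK, hH3, hll⟩ := hH0 H hH
  set L := Real.log H with hLdef
  set z := ⌊L ^ E⌋₊ with hz
  have hL0 : 0 < L := by linarith
  have hL1 : 1 ≤ L := by linarith
  have hLp0 : ∀ n : ℕ, 0 < L ^ n := fun n => by positivity
  have hLp : ∀ n : ℕ, 1 ≤ L ^ n := fun n => one_le_pow₀ hL1
  have hz3 : 3 ≤ z := by
    apply Nat.le_floor
    push_cast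
    calc (3:ℝ) ≤ L ^ 1 := by rw [pow_one]; linarith
      _ ≤ L ^ E := pow_le_pow_right₀ hL1 (le_max_right _ _)
  have hHr : (3 : ℝ) ≤ H := by exact_mod_cast hH3
  -- the bad sets
  let Pb : (Fin (2 + 1) → ℤ) → Prop := fun v =>
    (∀ p : ℕ, p.Prime → p ≤ z → rho (pol v) p ≠ p) ∧
      ∃ K : ℕ, (H : ℝ) ^ ε ≤ K ∧ (K : ℝ) * L ^ B ≤ H ∧
        SS z (pol v) * la (pol v) K / L ^ (U + 2) < |pa (pol v) K - SS z (pol v) * la (pol v) K|
  have hP := hH1 H g1 Pb (fun v _ hv => hv)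
  obtain ⟨X, hX1, hX2, hX3⟩ := hH2 H g2
  set B1 : Finset (ℤ × ℤ × ℤ) := (Tr H).filter (fun t => Pb (cv t)) with hB1
  set B2 : Finset (ℤ × ℤ × ℤ) := (Tr H).filter (fun t => (t.1 : ℝ) * L ^ (U + 2) < H) with hB2
  have hTr : (0 : ℝ) ≤ #(Tr H) := Nat.cast_nonneg _
  have c1 : (#B1 : ℝ) ≤ (#(Tr H) : ℝ) / L ^ (U + 2) := by
    rw [← card_box_Tr]
    refine le_trans ?_ hP
    have : #B1 ≤ #((box 2 H).filter Pb) := by
      apply card_le_card_of_injOn cv
      · intro t ht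
        rw [mem_coe, hB1, mem_filter] at ht
        rw [mem_coe, mem_filter]
        exact ⟨cv_mem H t ht.1, ht.2⟩
      · exact cv_inj.injOn
    exact_mod_cast this
  have c2 : (#B2 : ℝ) ≤ 2 * (#(Tr H) : ℝ) / L ^ (U + 2) := by
    have hsub : B2 ⊆ (Icc (1 : ℤ) ⌊(H : ℝ) / L ^ (U + 2)⌋) ×ˢ (Icc (-(H : ℤ)) H ×ˢ Icc (-(H : ℤ)) H) := by
      intro t ht
      rw [hB2, mem_filter, mem_Tr] at ht
      rw [mem_product, mem_product, mem_Icc, mem_Icc, mem_Icc]
      refine ⟨⟨ht.1.1.1, ?_⟩, ht.1.2⟩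
      rw [Int.le_floor, le_div_iff₀ (hLp0 _)]
      exact ht.2.le
    have h1 := card_le_card hsub
    rw [card_product] at h1
    have h2 : ((#(Icc (1 : ℤ) ⌊(H : ℝ) / L ^ (U + 2)⌋) : ℕ) : ℝ) ≤ (H : ℝ) / L ^ (U + 2) := by
      rw [Int.card_Icc]
      have h3 : (0 : ℤ) ≤ ⌊(H : ℝ) / L ^ (U + 2)⌋ := Int.floor_nonneg.2 (by positivity)
      have h4 : (((⌊(H : ℝ) / L ^ (U + 2)⌋ + 1 - 1).toNat : ℕ) : ℝ) = ((⌊(H : ℝ) / L ^ (U + 2)⌋ : ℤ) : ℝ) := by
        have : (((⌊(H : ℝ) / L ^ (U + 2)⌋ + 1 - 1).toNat : ℕ) : ℤ) = ⌊(H : ℝ) / L ^ (U + 2)⌋ := by omega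
        exact_mod_cast congrArg (fun x : ℤ => (x : ℝ)) this
      rw [h4]
      exact Int.floor_le _
    have h5 : (#(Tr H) : ℝ) = H * (#(Icc (-(H : ℤ)) H ×ˢ Icc (-(H : ℤ)) H) : ℝ) := by
      unfold Tr
      rw [card_product, Int.card_Icc]
      push_cast
      congr 1
      have : (((H : ℤ) + 1 - 1).toNat : ℤ) = H := by omega
      have h6 : ((H : ℤ) + 1 - 1).toNat = H := by omega
      rw [h6]
    have h1r : (#B2 : ℝ) ≤ (#(Icc (1 : ℤ) ⌊(H : ℝ) / L ^ (U + 2)⌋) : ℝ) * (#(Icc (-(H : ℤ)) H ×ˢ Icc (-(H : ℤ)) H) : ℝ) := by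
      exact_mod_cast h1
    calc (#B2 : ℝ) ≤ (#(Icc (1 : ℤ) ⌊(H : ℝ) / L ^ (U + 2)⌋) : ℝ) * (#(Icc (-(H : ℤ)) H ×ˢ Icc (-(H : ℤ)) H) : ℝ) := h1r
      _ ≤ (H : ℝ) / L ^ (U + 2) * (#(Icc (-(H : ℤ)) H ×ˢ Icc (-(H : ℤ)) H) : ℝ) := by gcongr
      _ = (#(Tr H) : ℝ) / L ^ (U + 2) := by rw [h5]; ring
      _ ≤ 2 * (#(Tr H) : ℝ) / L ^ (U + 2) := by
        gcongr
        linarith
  refine ⟨B1 ∪ (B2 ∪ X), union_subset (filter_subset _ _) (union_subset (filter_subset _ _) hX1), ?_, ?_⟩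
  · have h1 : (#(B1 ∪ (B2 ∪ X)) : ℝ) ≤ #B1 + (#B2 + #X) := by
      have h2 := card_union_le B1 (B2 ∪ X)
      have h3 := card_union_le B2 X
      exact_mod_cast (by omega : #(B1 ∪ (B2 ∪ X)) ≤ #B1 + (#B2 + #X))
    have h4 : (#(Tr H) : ℝ) / L ^ (U + 2) * 4 ≤ (#(Tr H) : ℝ) / L ^ U := by
      rw [pow_add, div_mul_eq_mul_div, div_le_div_iff₀ (by positivity) (hLp0 _)]
      have h5 : 4 ≤ L ^ 2 := by nlinarith
      have h6 : (0 : ℝ) ≤ #(Tr H) * L ^ U := by positivity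
      nlinarith
    have h7 : 2 * (#(Tr H) : ℝ) / L ^ (U + 2) = (#(Tr H) : ℝ) / L ^ (U + 2) * 2 := by ring
    rw [h7] at c2
    linarith
  · intro t ht htB hadm
    rw [mem_union, mem_union, not_or, not_or] at htB
    obtain ⟨k1, k2, k3⟩ := htB
    have ha : 0 < t.1 := hadm.1
    have hsq : ¬ IsSquare (dsc t) := hadm.2.2.2
    have hc0 : t.2.2 ≠ 0 := by
      intro h0
      apply hsq
      unfold dsc
      rw [h0]
      exact ⟨t.2.1, by ring⟩
    obtain ⟨C, hC0, hC⟩ := CF_tendsto t.1 t.2.1 t.2.2 ha hsq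
    have h1 := hX3 t ht k3 hc0 hsq
    have h2 := CF_limit t.1 t.2.1 t.2.2 C hC0 hC z (1 / L ^ (U + 2)) (by
      rw [div_le_one (hLp0 _)]; exact hLp _) h1
    have hSC := SS_CF hadm z (by omega)
    set cz := CF t.1 t.2.1 t.2.2 z with hcz
    -- sizes
    have hinv : 1 / L ^ (U + 2) ≤ 1 / 256 := by
      apply one_div_le_one_div_of_le (by norm_num)
      calc (256 : ℝ) ≤ L ^ 1 := by rw [pow_one]; exact hL
        _ ≤ L ^ (U + 2) := pow_le_pow_right₀ hL1 (by omega)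
    have h3 := abs_le.1 h2
    have hcz2 : cz ≤ 2 * C := by nlinarith
    have hczl : cz ≤ 2 * C := hcz2
    have hCl : 1 / L ≤ C := by
      have hs1 := hSSl z hz3 (pol (cv t)) (pol_natDegree_le _) (fun p hp _ => rho_ne hadm p hp)
      rw [hSC] at hs1
      have hzle : (z:ℝ) ≤ L ^ E := Nat.floor_le (by positivity)
      have hzr : (3:ℝ) ≤ z := by exact_mod_cast hz3
      have hlogz : Real.log z ≤ E * Real.log L := by
        rw [← Real.log_pow]
        exact Real.log_le_log (by linarith) hzle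
      have hlogz0 : 0 < Real.log z := Real.log_pos (by linarith)
      have h4 : 16 / L ≤ 2 * cz := by
        refine le_trans ?_ hs1
        rw [div_le_div_iff₀ hL0 (by positivity)]
        calc 16 * Real.log z ^ (2 * 2) ≤ 16 * (E * Real.log L) ^ (2 * 2) := by
              gcongr
          _ = (E * Real.log L) ^ (2 * 2) * 16 := by ring
          _ ≤ c * L := hll
      have h5 : 16 / L = 16 * (1 / L) := by ring
      rw [h5] at h4
      have h6 : 0 < 1 / L := by positivity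
      linarith
    refine ⟨C, hC0, hCl, hC, fun K hK1 hK2 => ?_⟩
    have hK0 : (0 : ℝ) ≤ K := Nat.cast_nonneg _
    -- the asymptotic formula with the cut product
    have h5 : |pa (pol (cv t)) K - SS z (pol (cv t)) * la (pol (cv t)) K| ≤
        SS z (pol (cv t)) * la (pol (cv t)) K / L ^ (U + 2) := by
      by_contra hcon
      push Not at hcon
      apply k1
      rw [hB1, mem_filter]
      exact ⟨ht, fun p hp _ => rho_ne hadm p hp, K, hK1, hK2, hcon⟩
    rw [hSC] at h5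
    -- negative values
    have h6 : (H : ℝ) ≤ t.1 * L ^ (U + 2) := by
      by_contra hcon
      push Not at hcon
      apply k2
      rw [hB2, mem_filter]
      exact ⟨ht, hcon⟩
    set K1 := ⌈2 * L ^ (U + 2)⌉₊ with hK1d
    have hK1le : (K1 : ℝ) ≤ 3 * L ^ (U + 2) := by
      have := Nat.ceil_lt_add_one (show 0 ≤ 2 * L ^ (U + 2) by positivity)
      have h8 := hLp (U + 2)
      linarith
    obtain ⟨d1, d2, d3⟩ := abs_conv (pol (cv t)) K K1 (by
      intro k hk _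
      apply eval_nn H t ht k (by omega)
      have h7 : 2 * L ^ (U + 2) ≤ k := (Nat.le_ceil _).trans (by exact_mod_cast hk.le)
      have h8 : (2 * H : ℝ) ≤ t.1 * k := by
        have ha' : (0 : ℝ) ≤ (t.1 : ℝ) := by exact_mod_cast ha.le
        calc (2 * H : ℝ) ≤ 2 * (t.1 * L ^ (U + 2)) := by linarith
          _ = t.1 * (2 * L ^ (U + 2)) := by ring
          _ ≤ t.1 * k := mul_le_mul_of_nonneg_left h7 ha'
      exact_mod_cast h8)
    obtain ⟨l1, l2⟩ := lF_bounds (pol (cv t)) K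
    set pvK := pv (pol (cv t)) K with hpv
    set paK := pa (pol (cv t)) K with hpa
    set laK := la (pol (cv t)) K with hla
    set lFK := lF (pol (cv t)) K with hlF
    have hla0 : 0 ≤ laK := by linarith
    have hla2 : laK ≤ 2 * K := by
      rw [hla]
      unfold la
      calc _ ≤ ∑ k ∈ (Icc 1 K).filter (fun k : ℕ => 2 ≤ |(pol (cv t)).eval (k : ℤ)|), (2:ℝ) :=
            sum_le_sum fun k hk => (la_term _ k (mem_filter.mp hk).2).2
        _ ≤ ∑ k ∈ Icc 1 K, (2:ℝ) :=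
            sum_le_sum_of_subset_of_nonneg (filter_subset _ _) fun _ _ _ => by norm_num
        _ = 2 * K := by rw [sum_const, Nat.card_Icc, nsmul_eq_mul, Nat.add_sub_cancel]; ring
    have hKL : L ^ (2 * U + 8) ≤ K := hLK.trans hK1
    have hKH : K ≤ H := by
      have : (K:ℝ) ≤ H := by
        calc (K:ℝ) ≤ K * L ^ B := le_mul_of_one_le_right (Nat.cast_nonneg _) (hLp _)
          _ ≤ H := hK2
      exact_mod_cast this
    have h12 : 6 * 2 ≤ K := by
      have h13 : (12 : ℝ) ≤ K := by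
        calc (12 : ℝ) ≤ L ^ 1 := by rw [pow_one]; linarith
          _ ≤ L ^ (2 * U + 8) := pow_le_pow_right₀ hL1 (by omega)
          _ ≤ K := hKL
      exact_mod_cast h13
    have hlal := la_lower 2 (by norm_num) (by omega : 2 + 1 ≤ H) hKH h12 (cv_mem H t ht)
    rw [← hla, ← hLdef] at hlal
    refine ⟨?_, ?_⟩
    swap
    · have q1 : (K : ℝ) / (2 * (((2 : ℕ) : ℝ) + 2) * L) = K / (16 * L) + K / (16 * L) := by
        push_cast
        field_simp
        ring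
      rw [q1] at hlal
      have q2 : 6 * L ^ (U + 2) ≤ K / (16 * L) := by
        rw [le_div_iff₀ (by positivity)]
        calc 6 * L ^ (U + 2) * (16 * L) = L ^ (U + 3) * 96 := by ring
          _ ≤ L ^ (U + 3) * L := by gcongr; linarith
          _ = L ^ (U + 4) := by ring
          _ ≤ L ^ (2 * U + 8) := pow_le_pow_right₀ hL1 (by omega)
          _ ≤ K := hKL
      linarith
    have hdec : pvK - 2 * C * lFK = (pvK - paK) + (paK - 2 * cz * laK) + (2 * (cz - C) * laK) +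
        2 * C * (laK - lFK) := by ring
    have e1 : |pvK - paK| ≤ 3 * L ^ (U + 2) := by rw [abs_sub_comm]; exact d1.trans hK1le
    have e2 : |paK - 2 * cz * laK| ≤ 8 * C * K * (1 / L ^ (U + 2)) := by
      refine h5.trans ?_
      have : 2 * cz * laK ≤ 2 * (2 * C) * (2 * K) := by
        have hcz0 : 0 ≤ cz := (CF_pos _ _ _ _).le
        have : 0 ≤ 2 * C := by positivity
        calc 2 * cz * laK ≤ 2 * (2 * C) * laK := by gcongr
          _ ≤ 2 * (2 * C) * (2 * K) := by gcongr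
      calc 2 * cz * laK / L ^ (U + 2) ≤ 2 * (2 * C) * (2 * K) / L ^ (U + 2) := by gcongr
        _ = 8 * C * K * (1 / L ^ (U + 2)) := by ring
    have e3 : |2 * (cz - C) * laK| ≤ 8 * C * K * (1 / L ^ (U + 2)) := by
      rw [abs_mul, abs_mul, abs_of_nonneg hla0, abs_of_nonneg (by norm_num : (0:ℝ) ≤ 2)]
      calc 2 * |cz - C| * laK ≤ 2 * (2 * (1 / L ^ (U + 2)) * C) * (2 * K) := by gcongr
        _ = 8 * C * K * (1 / L ^ (U + 2)) := by ring
    have e4 : |2 * C * (laK - lFK)| ≤ 12 * C * L ^ (U + 2) := by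
      rw [abs_mul, abs_of_nonneg (by positivity : (0:ℝ) ≤ 2 * C), abs_of_nonneg d2]
      calc 2 * C * (laK - lFK) ≤ 2 * C * (2 * K1) := by gcongr
        _ ≤ 2 * C * (2 * (3 * L ^ (U + 2))) := by gcongr
        _ = 12 * C * L ^ (U + 2) := by ring
    rw [hdec]
    refine (abs_add_le _ _).trans ((add_le_add (abs_add_le _ _) le_rfl).trans
      ((add_le_add (add_le_add (abs_add_le _ _) le_rfl) le_rfl).trans ?_))
    have f1 : 3 * L ^ (U + 2) ≤ C * K / L ^ (U + 2) := by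
      rw [le_div_iff₀ (hLp0 _)]
      have h9 : 3 * L ^ (U + 2) * L ^ (U + 2) * L ≤ K := by
        calc 3 * L ^ (U + 2) * L ^ (U + 2) * L = L ^ (2 * U + 5) * 3 := by ring
          _ ≤ L ^ (2 * U + 5) * L ^ 3 := by
            gcongr
            calc (3 : ℝ) ≤ L ^ 1 := by rw [pow_one]; linarith
              _ ≤ L ^ 3 := pow_le_pow_right₀ hL1 (by omega)
          _ = L ^ (2 * U + 8) := by ring
          _ ≤ K := hKL
      have h10 : 1 ≤ C * L := by
        rw [div_le_iff₀ hL0] at hCl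
        exact hCl
      calc 3 * L ^ (U + 2) * L ^ (U + 2) ≤ 3 * L ^ (U + 2) * L ^ (U + 2) * (C * L) :=
            le_mul_of_one_le_right (by positivity) h10
        _ = C * (3 * L ^ (U + 2) * L ^ (U + 2) * L) := by ring
        _ ≤ C * K := by gcongr
    have f2 : 12 * C * L ^ (U + 2) ≤ C * K / L ^ (U + 2) := by
      rw [le_div_iff₀ (hLp0 _)]
      have h9 : 12 * L ^ (U + 2) * L ^ (U + 2) ≤ K := by
        calc 12 * L ^ (U + 2) * L ^ (U + 2) = L ^ (2 * U + 4) * 12 := by ring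
          _ ≤ L ^ (2 * U + 4) * L ^ 4 := by
            gcongr
            calc (12 : ℝ) ≤ L ^ 1 := by rw [pow_one]; linarith
              _ ≤ L ^ 4 := pow_le_pow_right₀ hL1 (by omega)
          _ = L ^ (2 * U + 8) := by ring
          _ ≤ K := hKL
      calc 12 * C * L ^ (U + 2) * L ^ (U + 2) = C * (12 * L ^ (U + 2) * L ^ (U + 2)) := by ring
        _ ≤ C * K := by gcongr
    have f3 : 8 * C * K * (1 / L ^ (U + 2)) = 8 * (C * K / L ^ (U + 2)) := by ring
    rw [f3] at e2 e3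
    have f4 : 18 * (C * K / L ^ (U + 2)) ≤ C * K / L ^ U := by
      rw [pow_add, ← mul_div_assoc, div_le_div_iff₀ (by positivity) (hLp0 _)]
      have h9 : 18 ≤ L ^ 2 := by nlinarith
      have h10 : 0 ≤ C * K * L ^ U := by positivity
      nlinarith
    linarith

end Pool.Agent.Helper24K9.FBX
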