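import Pool.Agent.Helper24K9.FBX.B

set_option autoImplicit false

/-!
Conjecture F for almost all quadratic polynomials of height at most `H`: windows and the least prime value.
-/

namespace Pool.Agent.Helper24K9.FBX

open Finset Polynomial Filter Topology
open Pool.Agent.H442R2.EHI (evt_log_pow evt_log_ge)
open Pool.Agent.H300R2.BH
open Pool.Agent.H300R2.FB
open Pool.Agent.TH892
open Pool.Agent.W468.ConjF

/-- the number of `u < k ≤ v` with `F(k)` prime -/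
noncomputable def pw (F : ℤ[X]) (u v : ℕ) : ℝ :=
  (((Ioc u v).filter (fun k : ℕ => (F.eval (k : ℤ)).toNat.Prime)).card : ℝ)

/-- `∑ 1 / log F(k)` over `u < k ≤ v` with `F(k) ≥ 2` -/
noncomputable def lw (F : ℤ[X]) (u v : ℕ) : ℝ :=
  ∑ k ∈ (Ioc u v).filter (fun k : ℕ => 2 ≤ F.eval (k : ℤ)), 1 / Real.log ((F.eval (k : ℤ) : ℤ) : ℝ)

lemma Icc_split (u v : ℕ) (h : u ≤ v) : Icc 1 v = Icc 1 u ∪ Ioc u v := by
  ext k
  rw [mem_union, mem_Icc, mem_Icc, mem_Ioc]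
  omega

lemma Icc_disj (u v : ℕ) : Disjoint (Icc 1 u) (Ioc u v) := by
  rw [Finset.disjoint_left]
  intro k h1 h2
  rw [mem_Icc] at h1
  rw [mem_Ioc] at h2
  omega

lemma pw_eq (F : ℤ[X]) (u v : ℕ) (h : u ≤ v) : pw F u v = pv F v - pv F u := by
  unfold pw pv
  rw [Icc_split u v h, filter_union, card_union_of_disjoint (disjoint_filter_filter (Icc_disj u v))]
  push_cast
  ring

lemma lw_eq (F : ℤ[X]) (u v : ℕ) (h : u ≤ v) : lw F u v = lF F v - lF F u := by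
  unfold lw lF
  rw [Icc_split u v h, filter_union, sum_union (disjoint_filter_filter (Icc_disj u v))]
  ring

theorem windows (A : ℕ) (ε : ℝ) (hε : 0 < ε) : ∃ B H0 : ℕ, ∀ H : ℕ, H0 ≤ H →
    ∃ Bad ⊆ Tr H, (#Bad : ℝ) ≤ (#(Tr H) : ℝ) / Real.log H ^ A ∧
    ∀ t ∈ Tr H, t ∉ Bad → Admissible t.1 t.2.1 t.2.2 →
      ∃ C : ℝ, 0 < C ∧ Tendsto (fun z => CF t.1 t.2.1 t.2.2 z) atTop (𝓝 C) ∧
      (∃ k : ℕ, 1 ≤ k ∧ (k : ℝ) ≤ (H : ℝ) ^ ε ∧ ((pol (cv t)).eval (k : ℤ)).toNat.Prime) ∧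
      ∀ u v : ℕ, u < v → (H : ℝ) ^ ε ≤ v → (v : ℝ) * Real.log H ^ B ≤ H →
        |pw (pol (cv t)) u v - 2 * C * lw (pol (cv t)) u v| ≤ C * v / Real.log H ^ A := by
  obtain ⟨ε1, hε1⟩ : ∃ ε1 : ℝ, ε1 = min ε (1 / 2) / 2 := ⟨_, rfl⟩
  have h2a : 2 * ε1 ≤ ε := by rw [hε1]; have := min_le_left ε (1 / 2 : ℝ); linarith
  have h2b : 2 * ε1 ≤ 1 / 2 := by rw [hε1]; have := min_le_right ε (1 / 2 : ℝ); linarith
  have h20 : 0 < ε1 := by rw [hε1]; have := lt_min hε (show (0:ℝ) < 1 / 2 by norm_num); linarith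
  obtain ⟨B, H1, hm⟩ := main (A + 3) ε1 h20
  have hev : ∀ᶠ H : ℕ in atTop, H1 ≤ H ∧ 256 ≤ Real.log H ∧ 3 ≤ H ∧
      Real.log H ^ (A + 5) ≤ (H : ℝ) ^ ε1 ∧ Real.log H ^ B ≤ (H : ℝ) ^ (1 / 2 : ℝ) := by
    filter_upwards [eventually_ge_atTop H1, evt_log_ge 256, eventually_ge_atTop 3,
      evt_log_pow (A + 5) ε1 h20, evt_log_pow B (1 / 2) (by norm_num)] with H h1 h2 h3 h4 h5
    exact ⟨h1, h2, h3, h4, h5⟩
  obtain ⟨H0, hH0⟩ := eventually_atTop.mp hev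
  refine ⟨B, H0, fun H hH => ?_⟩
  obtain ⟨g1, hL, hH3, hLe, hLB⟩ := hH0 H hH
  obtain ⟨Bad, hB1, hB2, hB3⟩ := hm H g1
  set L := Real.log H with hLdef
  have hL0 : 0 < L := by linarith
  have hL1 : 1 ≤ L := by linarith
  have hLp0 : ∀ n : ℕ, 0 < L ^ n := fun n => by positivity
  have hLp : ∀ n : ℕ, 1 ≤ L ^ n := fun n => one_le_pow₀ hL1
  have hHr : (3 : ℝ) ≤ H := by exact_mod_cast hH3
  have hH1 : (1 : ℝ) ≤ H := by linarith
  have hH0' : (0 : ℝ) < H := by linarith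
  have hLA : (#(Tr H) : ℝ) / L ^ (A + 3) ≤ (#(Tr H) : ℝ) / L ^ A :=
    div_le_div_of_nonneg_left (Nat.cast_nonneg _) (hLp0 _) (pow_le_pow_right₀ hL1 (by omega))
  refine ⟨Bad, hB1, hB2.trans hLA, fun t ht htB hadm => ?_⟩
  obtain ⟨C, hC0, hCl, hC, hK⟩ := hB3 t ht htB hadm
  have hCL : 1 ≤ C * L := by rwa [div_le_iff₀ hL0] at hCl
  have hHe : (H : ℝ) ^ (2 * ε1) = (H : ℝ) ^ ε1 * (H : ℝ) ^ ε1 := by
    rw [← Real.rpow_add hH0']; congr 1; ring
  have hHe1 : 1 ≤ (H : ℝ) ^ ε1 := Real.one_le_rpow hH1 h20.le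
  refine ⟨C, hC0, hC, ?_, ?_⟩
  · -- a prime value
    set K := ⌊(H : ℝ) ^ (2 * ε1)⌋₊ with hKd
    have k1 : (K : ℝ) ≤ (H : ℝ) ^ (2 * ε1) := Nat.floor_le (by positivity)
    have k2 : (H : ℝ) ^ ε1 ≤ K := by
      have h3 : (H : ℝ) ^ (2 * ε1) < K + 1 := Nat.lt_floor_add_one _
      have h4 : 2 ≤ (H : ℝ) ^ ε1 := by
        refine le_trans ?_ hLe
        calc (2:ℝ) ≤ L ^ 1 := by rw [pow_one]; linarith
          _ ≤ L ^ (A + 5) := pow_le_pow_right₀ hL1 (by omega)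
      nlinarith
    have k3 : (K : ℝ) * L ^ B ≤ H := by
      calc (K : ℝ) * L ^ B ≤ (H : ℝ) ^ (1 / 2 : ℝ) * (H : ℝ) ^ (1 / 2 : ℝ) := by
            have h5 : (H : ℝ) ^ (2 * ε1) ≤ (H : ℝ) ^ (1 / 2 : ℝ) :=
              Real.rpow_le_rpow_of_exponent_le hH1 h2b
            have h6 := k1.trans h5
            gcongr
        _ = H := by
            rw [← Real.rpow_add hH0']
            norm_num
    obtain ⟨e1, e2⟩ := hK K k2 k3
    have hK0 : (0 : ℝ) < K := lt_of_lt_of_le (by linarith) k2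
    have e3 := (abs_le.1 e1).1
    have e4 : 2 * C * (K / (16 * L)) ≤ 2 * C * lF (pol (cv t)) K := by gcongr
    have e5 : C * K / L ^ (A + 3) ≤ C * K / (L * 16) := by
      apply div_le_div_of_nonneg_left (by positivity) (by positivity)
      calc L * 16 ≤ L * L ^ 1 := by rw [pow_one]; gcongr; linarith
        _ ≤ L * L ^ (A + 2) := by
            apply mul_le_mul_of_nonneg_left (pow_le_pow_right₀ hL1 (by omega)) hL0.le
        _ = L ^ (A + 3) := by ring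
    have e6 : 2 * C * (K / (16 * L)) = 2 * (C * K / (L * 16)) := by ring
    have e7 : 0 < C * K / (L * 16) := by positivity
    have e8 : 0 < pv (pol (cv t)) K := by linarith
    unfold pv at e8
    have e9 : 0 < ((Icc 1 K).filter (fun k : ℕ => ((pol (cv t)).eval (k : ℤ)).toNat.Prime)).card := by
      exact_mod_cast e8
    obtain ⟨k, hk⟩ := card_pos.1 e9
    rw [mem_filter, mem_Icc] at hk
    refine ⟨k, hk.1.1, ?_, hk.2⟩
    calc (k : ℝ) ≤ K := by exact_mod_cast hk.1.2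
      _ ≤ (H : ℝ) ^ (2 * ε1) := k1
      _ ≤ (H : ℝ) ^ ε := Real.rpow_le_rpow_of_exponent_le hH1 h2a
  · intro u v huv hv1 hv2
    rw [pw_eq _ _ _ huv.le, lw_eq _ _ _ huv.le]
    have hv3 : (H : ℝ) ^ (2 * ε1) ≤ v := (Real.rpow_le_rpow_of_exponent_le hH1 h2a).trans hv1
    have hv4 : (H : ℝ) ^ ε1 ≤ v := by
      refine le_trans ?_ hv3
      rw [hHe]
      exact le_mul_of_one_le_right (by positivity) hHe1
    obtain ⟨e1, -⟩ := hK v hv4 hv2
    have hv0 : (0 : ℝ) ≤ v := Nat.cast_nonneg _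
    have huv' : (u : ℝ) ≤ v := by exact_mod_cast huv.le
    have hu0 : (0 : ℝ) ≤ u := Nat.cast_nonneg _
    have hdec : pv (pol (cv t)) v - pv (pol (cv t)) u - 2 * C * (lF (pol (cv t)) v - lF (pol (cv t)) u) =
      (pv (pol (cv t)) v - 2 * C * lF (pol (cv t)) v) - (pv (pol (cv t)) u - 2 * C * lF (pol (cv t)) u) := by ring
    rw [hdec]
    refine (abs_sub _ _).trans ?_
    have hfin : 3 * (C * v / L ^ (A + 3)) ≤ C * v / L ^ A := by
      rw [pow_add, ← mul_div_assoc, div_le_div_iff₀ (by positivity) (hLp0 _)]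
      have h9 : 3 ≤ L ^ 3 := by
        calc (3:ℝ) ≤ L ^ 1 := by rw [pow_one]; linarith
          _ ≤ L ^ 3 := pow_le_pow_right₀ hL1 (by omega)
      have h10 : 0 ≤ C * v * L ^ A := by positivity
      nlinarith
    by_cases hu : (H : ℝ) ^ ε1 ≤ u
    · obtain ⟨e2, -⟩ := hK u hu (le_trans (by gcongr) hv2)
      have e3 : C * u / L ^ (A + 3) ≤ C * v / L ^ (A + 3) := by gcongr
      have e4 : 0 ≤ C * v / L ^ (A + 3) := by positivity
      linarith
    · push Not at hu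
      obtain ⟨p1, p2⟩ := pv_bounds (pol (cv t)) u
      obtain ⟨l1, l2⟩ := lF_bounds (pol (cv t)) u
      have e2 : |pv (pol (cv t)) u - 2 * C * lF (pol (cv t)) u| ≤ u + 4 * C * u := by
        rw [abs_le]
        have : 2 * C * lF (pol (cv t)) u ≤ 2 * C * (2 * u) := by gcongr
        have h0 : 0 ≤ 2 * C * lF (pol (cv t)) u := by positivity
        constructor <;> nlinarith
      have e3 : (u : ℝ) * L ^ (A + 5) ≤ v := by
        calc (u : ℝ) * L ^ (A + 5) ≤ (H : ℝ) ^ ε1 * (H : ℝ) ^ ε1 := by gcongr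
          _ = (H : ℝ) ^ (2 * ε1) := hHe.symm
          _ ≤ v := hv3
      have e4 : (u : ℝ) + 4 * C * u ≤ 2 * (C * v / L ^ (A + 3)) := by
        rw [← mul_div_assoc, le_div_iff₀ (hLp0 _)]
        have e5 : (u : ℝ) * L ^ (A + 3) ≤ C * v := by
          calc (u : ℝ) * L ^ (A + 3) ≤ (u : ℝ) * L ^ (A + 3) * (C * L) :=
                le_mul_of_one_le_right (by positivity) hCL
            _ = C * ((u : ℝ) * L ^ (A + 4)) := by ring
            _ ≤ C * ((u : ℝ) * L ^ (A + 5)) :=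
              mul_le_mul_of_nonneg_left (mul_le_mul_of_nonneg_left (pow_le_pow_right₀ hL1 (by omega)) hu0) hC0.le
            _ ≤ C * v := by gcongr
        have e6 : 4 * C * u * L ^ (A + 3) ≤ C * v := by
          calc 4 * C * u * L ^ (A + 3) ≤ L ^ 1 * C * u * L ^ (A + 3) := by
                rw [pow_one]; gcongr; linarith
            _ = C * ((u : ℝ) * L ^ (A + 4)) := by ring
            _ ≤ C * ((u : ℝ) * L ^ (A + 5)) :=
              mul_le_mul_of_nonneg_left (mul_le_mul_of_nonneg_left (pow_le_pow_right₀ hL1 (by omega)) hu0) hC0.le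
            _ ≤ C * v := by gcongr
        nlinarith
      linarith

end Pool.Agent.Helper24K9.FBX
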